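import Pool.Agent.Lib.MP_d51818_co.Sub17

set_option autoImplicit false

/-!
# MP_d51818_co : non-cyclic Sylow subgroups of abelian groups with planar difference sets, all orders
-/

namespace Pool.Agent.Results.MP_d51818_co.GeneralOrders

/-- The subgroup `A` of `G` has `m ^ 2 + m + 1` elements and contains a planar difference set
(of itself) of order `m`. -/
def PlanarOn {G : Type} [AddCommGroup G] [DecidableEq G] (A : AddSubgroup G) (m : ℕ) : Prop :=
  Nat.card A = m ^ 2 + m + 1 ∧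
  ∃ E : Finset G, E.card = m + 1 ∧ (∀ x ∈ E, x ∈ A) ∧
    ∀ g ∈ A, g ≠ 0 → ((E ×ˢ E).filter (fun q : G × G => q.1 - q.2 = g)).card = 1

/-- Let a finite abelian group `G` contain a planar difference set of order `n`, and let `w` be a
prime with more than `w` solutions of `w x = 0` in `G`. Then `3` divides the order modulo `w` of
some prime `p ∣ n`, and there is one subgroup `B` that contains all solutions of `w x = 0` and a
planar difference set of some order `M`, such that for every prime `p ∣ n`, of order `o` modulo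
`w`, `p ^ o` fixes `B` and: if `o = 2 ^ a * r` there are `m ≥ 2`, `j ≤ a` with `M = m ^ (2 ^ j)`
and a planar difference set of order `m` in a subgroup `A ≤ B` fixed by `p ^ r`; if
`o = 3 * 2 ^ a * r`, with `s = 2 ^ a * r`, then `p ^ (2 s) + p ^ s + 1` kills `B` and there are
`m ≥ 2`, `j ≤ a` with `M = m ^ (2 ^ j)` and a planar difference set of order `m` in a subgroup
`A ≤ B` killed by `k = p ^ (2 r) + p ^ r + 1`, where either `m = p ^ r`, `j = a` and
`w ^ 2 ∣ p ^ (w - 1) - 1`, or `m ≠ p ^ r`, `k` is not prime and `m` acts on `A` as `p ^ r` or as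
`p ^ (2 r)`. -/
theorem result :
    ∀ (n : ℕ) (G : Type) [AddCommGroup G] [Fintype G] [DecidableEq G] (D : Finset G),
      Fintype.card G = n ^ 2 + n + 1 →
      D.card = n + 1 →
      (∀ g : G, g ≠ 0 →
        ((D ×ˢ D).filter (fun q : G × G => q.1 - q.2 = g)).card = 1) →
      ∀ w : ℕ, w.Prime → w < Nat.card {x : G // w • x = 0} →
        (∃ p : ℕ, p.Prime ∧ p ∣ n ∧ 3 ∣ orderOf (p : ZMod w)) ∧
        ∃ (M : ℕ) (B : AddSubgroup G), PlanarOn B M ∧ (∀ x : G, w • x = 0 → x ∈ B) ∧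
          w ^ 2 ∣ M ^ 2 + M + 1 ∧
          (∀ p : ℕ, p.Prime → p ∣ n → ∀ x ∈ B, p ^ orderOf (p : ZMod w) • x = x) ∧
          ∀ p a r : ℕ, p.Prime → p ∣ n → 0 < r →
            (orderOf (p : ZMod w) = 2 ^ a * r →
              ∃ (m j : ℕ) (A : AddSubgroup G), 2 ≤ m ∧ j ≤ a ∧ M = m ^ 2 ^ j ∧ A ≤ B ∧
                PlanarOn A m ∧ ∀ x ∈ A, p ^ r • x = x) ∧
            (orderOf (p : ZMod w) = 3 * (2 ^ a * r) →
              (∀ x ∈ B, ((p ^ (2 ^ a * r)) ^ 2 + p ^ (2 ^ a * r) + 1) • x = 0) ∧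
              ∃ (m j : ℕ) (A : AddSubgroup G), 2 ≤ m ∧ j ≤ a ∧ M = m ^ 2 ^ j ∧ A ≤ B ∧
                PlanarOn A m ∧ (∀ x ∈ A, ((p ^ r) ^ 2 + p ^ r + 1) • x = 0) ∧
                ((m = p ^ r ∧ j = a ∧ w ^ 2 ∣ p ^ (w - 1) - 1) ∨
                  (m ≠ p ^ r ∧ ¬ ((p ^ r) ^ 2 + p ^ r + 1).Prime ∧
                    ((∀ x ∈ A, m • x = p ^ r • x) ∨
                      (∀ x ∈ A, m • x = (p ^ r) ^ 2 • x))))) := by
  intro n G _ _ _ D h1 h2 h3 w hw hlt
  rw [SubPl.natCard_eq] at hlt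
  exact SubPl.uni ⟨h1, h2, h3⟩ hw hlt

end Pool.Agent.Results.MP_d51818_co.GeneralOrders
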