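import Pool.Agent.Lib.MP_d51818_co.Sub12

set_option autoImplicit false

/-!
# MP_d51818_co : abelian planar difference sets of prime power order in non-cyclic groups
-/

namespace Pool.Agent.Results.MP_d51818_co.PrimePowerOrders

/-- The subgroup `{x | k x = 0}` of `G` has `m ^ 2 + m + 1` elements and contains a planar
difference set (of itself) of order `m`. -/
def PlanarIn (G : Type) [AddCommGroup G] [DecidableEq G] (k m : ℕ) : Prop :=
  Nat.card {x : G // k • x = 0} = m ^ 2 + m + 1 ∧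
  ∃ E : Finset G, E.card = m + 1 ∧ (∀ x ∈ E, k • x = 0) ∧
    ∀ g : G, g ≠ 0 → k • g = 0 →
      ((E ×ˢ E).filter (fun q : G × G => q.1 - q.2 = g)).card = 1

/-- Let a non-cyclic abelian group `G` contain a planar difference set of order `n = p ^ f`, `p`
prime. Then some prime `w` has more than `w` solutions of `w x = 0` in `G`, and for every such `w`
either `w` does not divide `f`, `w ^ 2` divides `p ^ (w - 1) - 1` and, `3 s` being the order of `p`
modulo `w`, `s ∣ f` and the subgroup of the `x` with `(p ^ (2 s) + p ^ s + 1) x = 0` contains a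
planar difference set of order `p ^ s`; or, the order being `3 * 2 ^ a * r`, `r` odd, and
`k = p ^ (2 r) + p ^ r + 1`, the number `k` is not prime, `3 r` does not divide `f`, and there are
an integer `t` with `|t| > 2` and `c = k t ^ 2 + (2 p ^ r + 1) t + 1`, `m` with `c r ∣ f`,
`c r ≤ f`, `c ≥ 9 p ^ (2 r) + 3 p ^ r + 7`, `c > 10 ^ 8`, `c k = m ^ 2 + m + 1`, such that every
prime `l` that divides `c` divides `k` and has more than `l` solutions of `l x = 0` in `G`, and the
subgroup of the `x` with `k x = 0` contains a planar difference set of order `m`. -/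
theorem result :
    ∀ (p f : ℕ), p.Prime →
    ∀ (G : Type) [AddCommGroup G] [Fintype G] [DecidableEq G] (D : Finset G),
      Fintype.card G = (p ^ f) ^ 2 + p ^ f + 1 →
      D.card = p ^ f + 1 →
      (∀ g : G, g ≠ 0 →
        ((D ×ˢ D).filter (fun q : G × G => q.1 - q.2 = g)).card = 1) →
      ¬ IsAddCyclic G →
      (∃ w : ℕ, w.Prime ∧ w < Nat.card {x : G // w • x = 0}) ∧
      ∀ w : ℕ, w.Prime → w < Nat.card {x : G // w • x = 0} →
        (¬ w ∣ f ∧ w ^ 2 ∣ p ^ (w - 1) - 1 ∧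
          ∃ s : ℕ, orderOf (p : ZMod w) = 3 * s ∧ s ∣ f ∧
            PlanarIn G (p ^ (2 * s) + p ^ s + 1) (p ^ s)) ∨
        ∃ (r c m : ℕ) (t : ℤ),
          Odd r ∧ (∃ a : ℕ, orderOf (p : ZMod w) = 3 * 2 ^ a * r) ∧
          ¬ (p ^ (2 * r) + p ^ r + 1).Prime ∧ ¬ 3 * r ∣ f ∧ c * r ∣ f ∧
          c * r ≤ f ∧ 9 * p ^ (2 * r) + 3 * p ^ r + 7 ≤ c ∧ 10 ^ 8 < c ∧ 2 < |t| ∧
          (c : ℤ) = (p ^ (2 * r) + p ^ r + 1) * t ^ 2 + (2 * p ^ r + 1) * t + 1 ∧
          c * (p ^ (2 * r) + p ^ r + 1) = m ^ 2 + m + 1 ∧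
          (∀ l : ℕ, l.Prime → l ∣ c →
            l ∣ p ^ (2 * r) + p ^ r + 1 ∧ l < Nat.card {x : G // l • x = 0}) ∧
          PlanarIn G (p ^ (2 * r) + p ^ r + 1) m := by
  intro p f hp G _ _ _ D h1 h2 h3 hcyc
  simp only [PlanarIn, SubPl.natCard_eq]
  exact ⟨SubPl.exists_w hcyc, fun w hw hlt => SubPl.main3 hp ⟨h1, h2, h3⟩ hw hlt⟩

end Pool.Agent.Results.MP_d51818_co.PrimePowerOrders
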