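import Pool.Agent.Lib.MP_d51818_co.B12

set_option autoImplicit false

/-!
# MP_d51818_co : abelian planar difference sets of prime power order with a non-cyclic Sylow
subgroup, and logarithmic derivatives of Kummer type
-/

open NumberField Polynomial

namespace Pool.Agent.Results.MP_d51818_co.SylowKummer

/-- Let `n = p ^ f` (`p` prime, `f` odd) and let an abelian group with more than `w` solutions of
`w x = 0` (`w` prime) contain a planar difference set of order `n`. Let `F(ζ)` generate a power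
`P ^ m`, `m > 0`, of a prime ideal `P` over `p` of the field of the `w`-th roots of unity. Then
there are integers `s b`, `1 ≤ b < w`, which are odd, with sum of squares at most
`w (w - 1) f ^ 2`, and which are modulo `w` the values of a polynomial in `b`, in which only the
odd exponents `i < w - 1` with `p ^ i ≡ 1` modulo `w` occur for which
`∏ a, F(ζ ^ a) ^ (a ^ i)` is congruent to a rational integer modulo `w`. In particular there is
such an exponent if `f ^ 2 < w`. -/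
theorem result :
    ∀ (w p f m : ℕ), w.Prime → p.Prime → Odd f → m ≠ 0 →
    ∀ (ζ : 𝓞 (CyclotomicField w ℚ)), IsPrimitiveRoot ζ w →
    ∀ (P : Ideal (𝓞 (CyclotomicField w ℚ))), P.IsPrime →
      (p : 𝓞 (CyclotomicField w ℚ)) ∈ P →
    ∀ (F : ℤ[X]), Ideal.span {aeval ζ F} = P ^ m →
    ∀ (G : Type) [AddCommGroup G] [Fintype G] [DecidableEq G] (D : Finset G),
      Fintype.card G = (p ^ f) ^ 2 + p ^ f + 1 →
      D.card = p ^ f + 1 →
      (∀ g : G, g ≠ 0 →
        ((D ×ˢ D).filter (fun q : G × G => q.1 - q.2 = g)).card = 1) →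
      w < Nat.card {x : G // w • x = 0} →
      (∃ r s : ℕ → ℤ,
        (∀ i, r i ≠ 0 → Odd i ∧ i < w - 1 ∧ w ∣ p ^ i - 1 ∧
          ∃ z : ℤ, (w : 𝓞 (CyclotomicField w ℚ)) ∣
            (∏ a ∈ Finset.Ico 1 w, (aeval (ζ ^ a) F) ^ (a ^ i)) - (z : 𝓞 (CyclotomicField w ℚ))) ∧
        (∀ b ∈ Finset.Ico 1 w, Odd (s b) ∧
          (w : ℤ) ∣ s b - ∑ i ∈ Finset.range w, r i * (b : ℤ) ^ i) ∧
        ∑ b ∈ Finset.Ico 1 w, s b ^ 2 ≤ (w : ℤ) * ((w : ℤ) - 1) * (f : ℤ) ^ 2) ∧
      (f ^ 2 < w → ∃ i, Odd i ∧ i < w - 1 ∧ w ∣ p ^ i - 1 ∧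
          ∃ z : ℤ, (w : 𝓞 (CyclotomicField w ℚ)) ∣
            (∏ a ∈ Finset.Ico 1 w, (aeval (ζ ^ a) F) ^ (a ^ i)) -
              (z : 𝓞 (CyclotomicField w ℚ))) := by
  intro w p f m hw hp hf hm ζ hζ P hP hpP F hF G _ _ _ D h1 h2 h3 h4
  have hw' : Fact w.Prime := ⟨hw⟩
  have hNZ : NeZero w := ⟨hw.ne_zero⟩
  have hNQ : NeZero (w : ℚ) := ⟨by exact_mod_cast hw.ne_zero⟩
  have hC : IsCyclotomicExtension {w} ℚ (CyclotomicField w ℚ) :=
    CyclotomicField.isCyclotomicExtension w ℚ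
  have h := PDSW.main (w := w) (K := CyclotomicField w ℚ) hp hf hm hpP hζ hF
    (D := D) ⟨h1, h2, h3⟩ h4
  exact ⟨h, fun hfw => PDSW.exists_cond hfw h⟩

end Pool.Agent.Results.MP_d51818_co.SylowKummer
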