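import Pool.Agent.Lib.MP_d51818_co.Final
import Pool.Agent.Lib.MP_d51818_co.Uniq

set_option autoImplicit false

/-!
# MP_d51818_co : abelian planar difference sets with non-cyclic Sylow 7-subgroup
-/

namespace Pool.Agent.Results.MP_d51818_co.SylowSeven

/-- If an abelian group whose Sylow 7-subgroup is not cyclic contains a planar difference set of
order `n` then `4 n = u ^ 2 + 343 v ^ 2`, or `n` is composite and for every `c` prime to `7` there
is a representation `4 n = u ^ 2 + 7 v ^ 2` with `v` congruent to `c` modulo `7`. -/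
theorem result :
    ∀ (G : Type) [AddCommGroup G] [Fintype G] [DecidableEq G] (n : ℕ) (D : Finset G),
      Fintype.card G = n ^ 2 + n + 1 →
      D.card = n + 1 →
      (∀ g : G, g ≠ 0 →
        ((D ×ˢ D).filter (fun p : G × G => p.1 - p.2 = g)).card = 1) →
      7 < Nat.card {x : G // (7 : ℕ) • x = 0} →
      (∃ u v : ℤ, 4 * (n : ℤ) = u ^ 2 + 343 * v ^ 2) ∨
        (¬ n.Prime ∧ ∀ c : ℤ, ¬ (7 : ℤ) ∣ c →
          ∃ u v : ℤ, 4 * (n : ℤ) = u ^ 2 + 7 * v ^ 2 ∧ (7 : ℤ) ∣ v - c) := by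
  intro G _ _ _ n D h1 h2 h3 h4
  rcases PDS7.main (n := n) (D := D) ⟨h1, h2, h3⟩ h4 with h | h
  · exact Or.inl h
  · by_cases hp : n.Prime
    · exfalso
      obtain ⟨u, v, e1, e2⟩ := h 1 (by norm_num)
      obtain ⟨u', v', e3, e4⟩ := h 2 (by norm_num)
      have h5 := PDS7.uniq hp e1 e3
      obtain ⟨a, ha⟩ := e2
      obtain ⟨b, hb⟩ := e4
      have h6 : v = 7 * a + 1 := by linarith
      have h7 : v' = 7 * b + 2 := by linarith
      rw [h6, h7] at h5
      have h8 : 7 * (7 * a ^ 2 + 2 * a - 7 * b ^ 2 - 4 * b) = 3 := by nlinarith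
      omega
    · exact Or.inr ⟨hp, h⟩

end Pool.Agent.Results.MP_d51818_co.SylowSeven
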